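import Pool.Agent.Helper28.TK.StK

/-!
# Project TK, module TN6: the Mellin transform of `hXK`
-/

set_option autoImplicit false

namespace Pool.Agent.Helper22.TK

open Pool.Agent.Helper28.TK Pool.Agent.Helper14.WK
open Pool.Agent.Helper14.CV (G0)
open Pool.Agent.Helper28.WK (pr cp)
open UpperHalfPlane CongruenceSubgroup
open scoped MatrixGroups
open Filter Asymptotics MeasureTheory

private theorem hX_eq {N D : ℕ} {k : ℤ} (χ : DirichletCharacter ℂ D) (f : CuspForm (G0 N) k) :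
    hXK χ f = fun y => ∑ u ∈ Finset.range D, χ⁻¹ (u : ZMod D) * hUK D f u y := rfl

private theorem hX_sum {N D : ℕ} {k : ℤ} (χ : DirichletCharacter ℂ D) (f : CuspForm (G0 N) k) :
    hXK χ f = ∑ u ∈ Finset.range D, fun y => χ⁻¹ (u : ZMod D) * hUK D f u y := by
  funext y
  rw [Finset.sum_apply]
  rfl

private theorem conv_A (A : ℕ) {F : ℝ → ℂ} (hc : ContinuousOn F (Set.Ioi 0))
    (ht : F =O[atTop] fun y : ℝ => Real.exp (-(2 * Real.pi) * y))
    (hb : ∀ b : ℝ, F =O[nhdsWithin 0 (Set.Ioi 0)] fun y : ℝ => y ^ (-b)) :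
    IntegrableOn (fun y : ℝ => (y : ℂ) ^ A * F y) (Set.Ioi 0) := by
  have h := mellinConvergent_of_isBigO_rpow_exp (a := 2 * Real.pi) (b := A) (s := (A : ℂ) + 1)
    (by positivity) (hc.locallyIntegrableOn measurableSet_Ioi) ht (hb A) (by simp)
  have h' : IntegrableOn (fun t : ℝ => (t : ℂ) ^ ((A : ℂ) + 1 - 1) • F t) (Set.Ioi 0) := h
  have e : (fun t : ℝ => (t : ℂ) ^ ((A : ℂ) + 1 - 1) • F t) = fun y : ℝ => (y : ℂ) ^ A * F y := by
    funext t
    rw [add_sub_cancel_right, Complex.cpow_natCast, smul_eq_mul]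
  rwa [e] at h'

private theorem mellin_A (A : ℕ) (F : ℝ → ℂ) :
    mellin F (A + 1) = ∫ y in Set.Ioi (0 : ℝ), (y : ℂ) ^ A * F y := by
  unfold mellin
  refine integral_congr_ae (Filter.Eventually.of_forall fun t => ?_)
  show (t : ℂ) ^ ((A : ℂ) + 1 - 1) • F t = (t : ℂ) ^ A * F t
  rw [add_sub_cancel_right, Complex.cpow_natCast, smul_eq_mul]

theorem hTN6 : StTN6 := by
  intro hE hA1 h1 h2 N hN A f D hD χ
  have hD0 : 0 < D := Nat.pos_of_ne_zero hD.out
  have hc : ∀ u, ContinuousOn (hUK D f u) (Set.Ioi 0) := fun u => (h1 N hN A f D u hD0).1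
  have ht : ∀ u, hUK D f u =O[atTop] fun y : ℝ => Real.exp (-(2 * Real.pi) * y) :=
    fun u => (h1 N hN A f D u hD0).2.1
  have hb : ∀ u, ∀ b : ℝ, hUK D f u =O[nhdsWithin 0 (Set.Ioi 0)] fun y : ℝ => y ^ (-b) :=
    fun u => (h1 N hN A f D u hD0).2.2
  refine ⟨?_, ?_⟩
  · intro s
    have hcX : ContinuousOn (hXK χ f) (Set.Ioi 0) := by
      rw [hX_eq]
      exact continuousOn_finsetSum _ fun u _ => continuousOn_const.mul (hc u)
    have htX : hXK χ f =O[atTop] fun y : ℝ => Real.exp (-(2 * Real.pi) * y) := by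
      rw [hX_sum]
      exact IsBigO.sum fun u _ => (ht u).const_mul_left _
    have hbX : hXK χ f =O[nhdsWithin 0 (Set.Ioi 0)] fun y : ℝ => y ^ (-(s.re - 1)) := by
      rw [hX_sum]
      exact IsBigO.sum fun u _ => (hb u _).const_mul_left _
    exact mellin_differentiableAt_of_isBigO_rpow_exp (a := 2 * Real.pi) (b := s.re - 1)
      (by positivity) (hcX.locallyIntegrableOn measurableSet_Ioi) htX hbX (by linarith)
  · intro I hI
    have e : (∫ y in Set.Ioi (0 : ℝ), (y : ℂ) ^ A * hXK χ f y) =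
        ∑ u ∈ Finset.range D, χ⁻¹ (u : ZMod D) * ∫ y in Set.Ioi (0 : ℝ), (y : ℂ) ^ A * hUK D f u y := by
      have e1 : (fun y : ℝ => (y : ℂ) ^ A * hXK χ f y) =
          fun y : ℝ => ∑ u ∈ Finset.range D, χ⁻¹ (u : ZMod D) * ((y : ℂ) ^ A * hUK D f u y) := by
        funext y
        rw [hX_eq]
        simp only [Finset.mul_sum]
        exact Finset.sum_congr rfl fun u _ => by ring
      rw [e1, integral_finsetSum _ fun u _ => ((conv_A A (hc u) (ht u) (hb u)).const_mul _)]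
      exact Finset.sum_congr rfl fun u _ => integral_const_mul _ _
    rw [mellin_A, e, Finset.mul_sum, ← Finset.sum_neg_distrib]
    refine Finset.sum_congr rfl fun u _ => ?_
    rw [h2 hE hA1 h1 N hN A f I D u hD0 hI]
    ring

end Pool.Agent.Helper22.TK
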